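import Pool.Agent.Helper86.SJ.Defs

/-! # Project SJ, package ASM: everything together -/

set_option autoImplicit false

open Finset

namespace Pool.Agent.Helper93.SJ

open _root_.SJ

theorem arc_asymm {n : ℕ} (F : Finset (Fin n → ℤ)) (x y : Fin n) (h : Arc F x y) :
    ¬ Arc F y x := by
  rintro ⟨-, -, -, c, -, hc⟩
  obtain ⟨-, ⟨v, hv, h1, h2⟩, ⟨w, hw, h3, h4⟩, -⟩ := h
  have e1 := hc v hv h2 (by rw [h1]; norm_num)
  have e2 := hc w hw h4 (by rw [h3]; norm_num)
  omega

theorem card_of_mem_EX {n k : ℕ} (F : Finset (Fin n → ℤ)) (S : Finset (Fin n))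
    (h : S ∈ EX k F) : #S = k := by
  classical
  unfold EX at h
  rw [mem_union] at h
  rcases h with h | h
  · unfold HH at h
    rw [mem_filter, mem_powersetCard] at h
    exact h.1.2
  · unfold LL at h
    rw [mem_filter, mem_powersetCard] at h
    exact h.1.2

theorem mem_supp {n : ℕ} (v : Fin n → ℤ) (i : Fin n) : i ∈ supp v ↔ v i ≠ 0 := by
  unfold supp
  simp

theorem asm : ASMStm := by
  classical
  intro hSRC hBOUND hTOP hCON hCEN k hk
  obtain ⟨C, hC⟩ := hBOUND k hk
  obtain ⟨n₀, hn₀⟩ := hTOP k C hk
  refine ⟨n₀, fun n hn F hF => ?_⟩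
  by_cases hcard : 2 * n.choose k ≤ #F
  · obtain ⟨T, V, v₁, hv₁, hv₁T, hV, hEV, hT1, hT2, hT3⟩ := hn₀ n hn (Arc F) (EX k F)
      (arc_asymm F) (hC n F hF hcard) (card_of_mem_EX F)
      (fun S hS hSE => (hSRC n k F hF.1 S hS hSE).2)
    obtain ⟨hfib, c, hc, hc1⟩ := hCEN n k F hk hF T V v₁ hv₁ hv₁T hV hEV hT1 hT2 hT3
    set F₁ : Finset (Fin n → ℤ) := F.filter (fun v => Disjoint (supp v) T ∧
      #((supp v).filter (fun i => v i ≠ c i)) = 1) with hF₁
    have hF₁J : IndJ n k F₁ :=
      ⟨fun v hv => hF.1 v (mem_filter.1 hv).1, fun u hu v hv huv =>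
        hF.2 u (mem_filter.1 hu).1 v (mem_filter.1 hv).1 huv⟩
    obtain ⟨F', hF', hle⟩ := hCON n k (by omega) T c hc F₁ hF₁J fun v hv => (mem_filter.1 hv).2
    refine ⟨F', hF', ?_⟩
    set FT : Finset (Fin n → ℤ) := F.filter (fun v => ¬ Disjoint (supp v) T) with hFT
    set F₀ : Finset (Fin n → ℤ) := F.filter (fun v => Disjoint (supp v) T ∧
      #((supp v).filter (fun i => v i ≠ c i)) = 0) with hF₀
    have hcov : F ⊆ FT ∪ F₀ ∪ F₁ := by
      intro v hv
      rw [mem_union, mem_union]
      by_cases hd : Disjoint (supp v) T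
      · have h1 := hc1 v hv hd
        rcases Nat.lt_or_ge (#((supp v).filter (fun i => v i ≠ c i))) 1 with h2 | h2
        · exact Or.inl (Or.inr (mem_filter.2 ⟨hv, hd, by omega⟩))
        · exact Or.inr (mem_filter.2 ⟨hv, hd, by omega⟩)
      · exact Or.inl (Or.inl (mem_filter.2 ⟨hv, hd⟩))
    have hcardF : #F ≤ #FT + #F₀ + #F₁ :=
      (card_le_card hcov).trans ((card_union_le _ _).trans
        (Nat.add_le_add_right (card_union_le _ _) _))
    have hcT : #FT ≤ 2 * #((powersetCard k (univ : Finset (Fin n))).filter
        (fun S => ¬ Disjoint S T)) := by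
      have h1 : #FT ≤ 2 * #(FT.image supp) := by
        refine card_le_mul_card_image FT 2 fun S hS => ?_
        rw [mem_image] at hS
        obtain ⟨v, hv, rfl⟩ := hS
        have hv' := mem_filter.1 hv
        refine (card_le_card ?_).trans (hfib (supp v) (hF.1 v hv'.1).2 hv'.2)
        intro w hw
        rw [mem_filter] at hw
        unfold fib
        rw [mem_filter]
        exact ⟨(mem_filter.1 hw.1).1, hw.2⟩
      refine h1.trans (Nat.mul_le_mul_left 2 (card_le_card ?_))
      intro S hS
      rw [mem_image] at hS
      obtain ⟨v, hv, rfl⟩ := hS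
      have hv' := mem_filter.1 hv
      rw [mem_filter, mem_powersetCard]
      exact ⟨⟨subset_univ _, (hF.1 v hv'.1).2⟩, hv'.2⟩
    have hc0 : #F₀ ≤ #((powersetCard k (univ : Finset (Fin n))).filter
        (fun S => Disjoint S T)) := by
      refine card_le_card_of_injOn supp ?_ ?_
      · intro v hv
        have hv' := mem_filter.1 hv
        simp only [coe_filter, Set.mem_setOf_eq, mem_powersetCard]
        exact ⟨⟨subset_univ _, (hF.1 v hv'.1).2⟩, hv'.2.1⟩
      · intro v hv w hw hvw
        have hv' := (mem_filter.1 hv).2.2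
        have hw' := (mem_filter.1 hw).2.2
        rw [card_eq_zero] at hv' hw'
        funext i
        by_cases hi : v i = 0
        · have h1 : i ∉ supp w := by
            rw [← hvw, mem_supp]
            exact fun h => h hi
          rw [mem_supp, not_not] at h1
          rw [hi, h1]
        · have h1 : i ∈ supp v := (mem_supp v i).2 hi
          have h2 : i ∈ supp w := by rwa [← hvw]
          have h3 : v i = c i := by
            by_contra h
            have : i ∈ (supp v).filter (fun i => v i ≠ c i) := mem_filter.2 ⟨h1, h⟩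
            rw [hv'] at this
            exact absurd this (notMem_empty _)
          have h4 : w i = c i := by
            by_contra h
            have : i ∈ (supp w).filter (fun i => w i ≠ c i) := mem_filter.2 ⟨h2, h⟩
            rw [hw'] at this
            exact absurd this (notMem_empty _)
          rw [h3, h4]
    have e1 : #((powersetCard k (univ : Finset (Fin n))).filter (fun S => ¬ Disjoint S T)) =
        @card _ (@filter _ (fun S => ¬ Disjoint S T) (fun a => Classical.propDecidable _)
          (powersetCard k (univ : Finset (Fin n)))) := by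
      congr
    have e2 : #((powersetCard k (univ : Finset (Fin n))).filter (fun S => Disjoint S T)) =
        @card _ (@filter _ (fun S => Disjoint S T) (fun a => Classical.propDecidable _)
          (powersetCard k (univ : Finset (Fin n)))) := by
      congr
    refine hcardF.trans (le_trans ?_ hle)
    have := Nat.add_le_add_right (Nat.add_le_add hcT hc0) (#F₁)
    convert this using 3
  · obtain ⟨F', hF', h1⟩ := hCON n k (by omega) univ (fun _ => 1) (fun _ => Or.inl rfl) ∅
      ⟨by simp, by simp⟩ (by simp)
    refine ⟨F', hF', ?_⟩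
    have h2 : ∀ S ∈ powersetCard k (univ : Finset (Fin n)), ¬ Disjoint S univ := by
      intro S hS h
      rw [mem_powersetCard] at hS
      have h3 : S = ∅ := by
        rw [← disjoint_self_iff_empty]
        exact h.mono_right (subset_univ S)
      rw [h3, card_empty] at hS
      omega
    have h3 := filter_true_of_mem h2
    have h4 : #((powersetCard k (univ : Finset (Fin n))).filter (fun S => ¬ Disjoint S univ)) =
        n.choose k := by
      rw [h3, card_powersetCard, card_univ, Fintype.card_fin]
    have h5 : 2 * n.choose k ≤ #F' := by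
      refine le_trans ?_ h1
      rw [← h4]
      refine le_trans ?_ (Nat.le_add_right _ _)
      refine le_trans ?_ (Nat.le_add_right _ _)
      apply le_of_eq
      congr
    omega

end Pool.Agent.Helper93.SJ
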